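import Mathlib

set_option autoImplicit false

namespace Pool.Agent.Results.MP_26524f_gt.FSigmaOneSelection

/-- `U` is an open subset of the subspace `X`. -/
def IsOpenIn (X U : Set ℝ) : Prop := ∃ V : Set ℝ, IsOpen V ∧ U = V ∩ X

/-- Open gamma-covers of `X`. -/
def IsGammaCover (X : Set ℝ) (𝒰 : Set (Set ℝ)) : Prop :=
  (∀ U ∈ 𝒰, IsOpenIn X U) ∧ X ∉ 𝒰 ∧ 𝒰.Infinite ∧ ∀ x ∈ X, {U ∈ 𝒰 | x ∉ U}.Finite

/-- Open omega-covers of `X`. -/
def IsOmegaCover (X : Set ℝ) (𝒰 : Set (Set ℝ)) : Prop :=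
  (∀ U ∈ 𝒰, IsOpenIn X U) ∧ X ∉ 𝒰 ∧ ∀ F : Set ℝ, F.Finite → F ⊆ X → ∃ U ∈ 𝒰, F ⊆ U

/-- The selection principle `S₁(Γ, Ω)` of `X`. -/
def SOneGammaOmega (X : Set ℝ) : Prop :=
  ∀ 𝒰 : ℕ → Set (Set ℝ), (∀ n, IsGammaCover X (𝒰 n)) →
    ∃ U : ℕ → Set ℝ, (∀ n, U n ∈ 𝒰 n) ∧ IsOmegaCover X (Set.range U)

/-- The trace on a relatively closed set, completed by the complement. -/
def ext (X C U : Set ℝ) : Set ℝ := (U ∩ C) ∪ (X \ C)

/-- The closed pieces, made increasing. -/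
def cl (K : ℕ → Set ℝ) (n : ℕ) : Set ℝ := ⋃ i ∈ Finset.range (n + 1), K i

theorem isClosed_cl {K : ℕ → Set ℝ} (hK : ∀ n, IsClosed (K n)) (n : ℕ) : IsClosed (cl K n) :=
  isClosed_biUnion_finset (fun i _ => hK i)

theorem cl_sub {K : ℕ → Set ℝ} (n : ℕ) : cl K n ⊆ ⋃ i, K i := by
  intro x hx
  simp only [cl, Set.mem_iUnion] at hx ⊢
  obtain ⟨i, _, hi⟩ := hx
  exact ⟨i, hi⟩

theorem exists_cl {K : ℕ → Set ℝ} (F : Set ℝ) (hfin : F.Finite) (hF : F ⊆ ⋃ i, K i) :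
    ∃ n, F ⊆ cl K n := by
  induction F, hfin using Set.Finite.induction_on with
  | empty => exact ⟨0, Set.empty_subset _⟩
  | @insert a F ha hfin ih =>
    rw [Set.insert_subset_iff] at hF
    obtain ⟨n, hn⟩ := ih hF.2
    obtain ⟨i, hi⟩ := Set.mem_iUnion.1 hF.1
    refine ⟨max n i, ?_⟩
    rw [Set.insert_subset_iff]
    constructor
    · simp only [cl, Set.mem_iUnion]
      exact ⟨i, by simp, hi⟩
    · intro x hx
      have := hn hx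
      simp only [cl, Set.mem_iUnion] at this ⊢
      obtain ⟨j, hj, hxj⟩ := this
      refine ⟨j, ?_, hxj⟩
      simp only [Finset.mem_range] at hj ⊢
      omega

/-- The extended family is an open gamma-cover of the big set. -/
theorem ext_gamma {X Y C : Set ℝ} (hC : IsClosed C) (hYX : Y ⊆ X) (hXC : X ∩ C ⊆ Y)
    {𝒰 : Set (Set ℝ)} (h : IsGammaCover Y 𝒰) (hno : ∀ U ∈ 𝒰, ¬ X ∩ C ⊆ U) :
    IsGammaCover X (ext X C '' 𝒰) := by
  obtain ⟨h1, -, h4, h5⟩ := h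
  refine ⟨?_, ?_, ?_, ?_⟩
  · rintro _ ⟨U, hU, rfl⟩
    obtain ⟨V, hV, rfl⟩ := h1 U hU
    refine ⟨V ∪ Cᶜ, hV.union hC.isOpen_compl, ?_⟩
    ext x
    simp only [ext, Set.mem_union, Set.mem_inter_iff, Set.mem_sdiff, Set.mem_compl_iff]
    constructor
    · rintro (⟨⟨hxV, hxY⟩, hxC⟩ | ⟨hxX, hxC⟩)
      · exact ⟨Or.inl hxV, hYX hxY⟩
      · exact ⟨Or.inr hxC, hxX⟩
    · rintro ⟨hx, hxX⟩
      by_cases hxC : x ∈ C
      · refine Or.inl ⟨⟨?_, hXC ⟨hxX, hxC⟩⟩, hxC⟩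
        rcases hx with hx | hx
        · exact hx
        · exact absurd hxC hx
      · exact Or.inr ⟨hxX, hxC⟩
  · rintro ⟨U, hU, hUX⟩
    apply hno U hU
    rintro x ⟨hxX, hxC⟩
    have : x ∈ ext X C U := by rw [hUX]; exact hxX
    rcases this with ⟨h, _⟩ | ⟨_, h⟩
    · exact h
    · exact absurd hxC h
  · intro hfin
    apply h4
    have hsub : 𝒰 ⊆ ⋃ W ∈ ext X C '' 𝒰, {U ∈ 𝒰 | ext X C U = W} := by
      intro U hU
      simp only [Set.mem_iUnion]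
      exact ⟨ext X C U, ⟨U, hU, rfl⟩, hU, rfl⟩
    refine Set.Finite.subset (hfin.biUnion ?_) hsub
    rintro _ ⟨U, hU, rfl⟩
    have := hno U hU
    rw [Set.not_subset] at this
    obtain ⟨x, ⟨hxX, hxC⟩, hxU⟩ := this
    refine Set.Finite.subset (h5 x (hXC ⟨hxX, hxC⟩)) ?_
    rintro U' ⟨hU', hEq⟩
    refine ⟨hU', fun hxU' => hxU ?_⟩
    have h6 : x ∈ ext X C U' := Or.inl ⟨hxU', hxC⟩
    rw [hEq] at h6
    rcases h6 with ⟨h, _⟩ | ⟨_, h⟩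
    · exact h
    · exact absurd hxC h
  · intro x hxX
    by_cases hxC : x ∈ C
    · refine Set.Finite.subset ((h5 x (hXC ⟨hxX, hxC⟩)).image (ext X C)) ?_
      rintro _ ⟨⟨U, hU, rfl⟩, hx⟩
      exact ⟨U, ⟨hU, fun hxU => hx (Or.inl ⟨hxU, hxC⟩)⟩, rfl⟩
    · refine Set.Finite.subset Set.finite_empty ?_
      rintro _ ⟨⟨U, hU, rfl⟩, hx⟩
      exact absurd (Or.inr ⟨hxX, hxC⟩) hx

/-- `S₁(Γ, Ω)` is hereditary for `F_σ` subsets: if a set of reals `X` satisfies `S₁(Γ, Ω)` then so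
does every countable union of relatively closed subsets of `X`. -/
theorem result : ∀ X : Set ℝ, SOneGammaOmega X →
    ∀ K : ℕ → Set ℝ, (∀ n, IsClosed (K n)) → SOneGammaOmega (X ∩ ⋃ n, K n) := by
  classical
  intro X hX K hKc 𝒰 h𝒰
  set Y : Set ℝ := X ∩ ⋃ n, K n with hY
  have hYX : Y ⊆ X := Set.inter_subset_left
  have hXC : ∀ n, X ∩ cl K n ⊆ Y := by
    rintro n x ⟨hx, hxn⟩
    exact ⟨hx, cl_sub n hxn⟩
  have key : ∀ n, ∃ U : ℕ → Set ℝ, (∀ k, U k ∈ 𝒰 (Nat.pair n k)) ∧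
      ∀ F : Set ℝ, F.Finite → F ⊆ X ∩ cl K n → ∃ k, F ⊆ U k := by
    intro n
    by_cases hex : ∃ k, ∃ U ∈ 𝒰 (Nat.pair n k), X ∩ cl K n ⊆ U
    · obtain ⟨k, W, hW, hsub⟩ := hex
      have hne : ∀ j, ∃ U, U ∈ 𝒰 (Nat.pair n j) := fun j => (h𝒰 _).2.2.1.nonempty
      choose U0 hU0 using hne
      refine ⟨fun j => if j = k then W else U0 j, fun j => ?_, fun F _ hF => ⟨k, ?_⟩⟩
      · by_cases hj : j = k
        · subst hj
          simp [hW]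
        · simp [hj, hU0]
      · simpa using hF.trans hsub
    · push Not at hex
      obtain ⟨W, hW, -, -, hW3⟩ := hX (fun k => ext X (cl K n) '' 𝒰 (Nat.pair n k)) (fun k =>
        ext_gamma (isClosed_cl hKc n) hYX (hXC n) (h𝒰 (Nat.pair n k)) (hex k))
      choose U hU1 hU2 using hW
      refine ⟨U, hU1, fun F hfin hF => ?_⟩
      obtain ⟨_, ⟨k, rfl⟩, hFk⟩ := hW3 F hfin (hF.trans Set.inter_subset_left)
      refine ⟨k, fun x hx => ?_⟩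
      have h1 := hFk hx
      rw [← hU2 k] at h1
      rcases h1 with ⟨h, _⟩ | ⟨_, h⟩
      · exact h
      · exact absurd (hF hx).2 h
  choose U hU1 hU2 using key
  have hmem : ∀ m, U (Nat.unpair m).1 (Nat.unpair m).2 ∈ 𝒰 m := by
    intro m
    have := hU1 (Nat.unpair m).1 (Nat.unpair m).2
    rwa [Nat.pair_unpair] at this
  refine ⟨fun m => U (Nat.unpair m).1 (Nat.unpair m).2, hmem, ?_, ?_, ?_⟩
  · rintro _ ⟨m, rfl⟩
    exact (h𝒰 m).1 _ (hmem m)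
  · rintro ⟨m, hm⟩
    apply (h𝒰 m).2.1
    have h1 := hmem m
    simp only at hm
    rwa [hm] at h1
  · intro F hfin hF
    obtain ⟨n, hn⟩ := exists_cl F hfin (K := K) (fun x hx => (hF hx).2)
    obtain ⟨k, hk⟩ := hU2 n F hfin (fun x hx => ⟨(hF hx).1, hn hx⟩)
    refine ⟨_, ⟨Nat.pair n k, rfl⟩, ?_⟩
    simpa using hk

end Pool.Agent.Results.MP_26524f_gt.FSigmaOneSelection
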